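import Mathlib

open Set Metric Filter Topology MeasureTheory
open scoped Real CompactlySupported ENNReal

namespace Pool.Agent.H.MP_65d7a7_an

lemma dom {X : Type} [TopologicalSpace X] [CompactSpace X] [T2Space X] [MeasurableSpace X] [BorelSpace X]
    (A : Submodule ℂ C(X, ℂ)) (w : C(X, ℂ)) (y : X) (n : ℝ) (n0 : 0 ≤ n)
    (H : ∀ g ∈ A, ‖g y‖ ≤ n * ‖w * g‖) :
    ∃ μ : Measure X, IsProbabilityMeasure μ ∧ ∀ g ∈ A, ‖g y‖ ≤ n * ∫ z, ‖w z * g z‖ ∂μ := by
  let t : Set C(X, ℝ) := {h | ∃ g ∈ A, ∀ z, n * ‖w z * g z‖ - (g y).re ≤ h z}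
  have cone : ∀ c : ℝ, 0 ≤ c → ∀ h ∈ t, c • h ∈ t := by
    rintro c c0 h ⟨g, gA, hg⟩
    refine ⟨(c : ℂ) • g, A.smul_mem _ gA, fun z => ?_⟩
    have := mul_le_mul_of_nonneg_left (hg z) c0
    have e : ‖w z * ((c : ℂ) * g z)‖ = c * ‖w z * g z‖ := by
      rw [mul_left_comm, norm_mul, Complex.norm_real, Real.norm_of_nonneg c0]
    simp only [ContinuousMap.smul_apply, smul_eq_mul, e, Complex.re_ofReal_mul]
    nlinarith
  have add : ∀ h ∈ t, ∀ h' ∈ t, h + h' ∈ t := by
    rintro h ⟨g, gA, hg⟩ h' ⟨g', gA', hg'⟩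
    refine ⟨g + g', A.add_mem gA gA', fun z => ?_⟩
    have := mul_le_mul_of_nonneg_left (norm_add_le (w z * g z) (w z * g' z)) n0
    simp only [ContinuousMap.add_apply, mul_add, Complex.add_re] at this ⊢
    linarith [hg z, hg' z]
  have cv : Convex ℝ t := fun h hh h' hh' a b a0 b0 _ => add _ (cone a a0 h hh) _ (cone b b0 h' hh')
  have dj : Disjoint (ball (-1 : C(X, ℝ)) 1) t := by
    rw [Set.disjoint_left]
    rintro h hb ⟨g, gA, hg⟩
    rw [mem_ball, dist_eq_norm] at hb
    have k z : n * ‖w z * g z‖ ≤ (g y).re - (1 - ‖h - -1‖) := by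
      have := (le_abs_self _).trans ((h - -1).norm_coe_le_norm z)
      simp only [ContinuousMap.sub_apply, ContinuousMap.neg_apply, ContinuousMap.one_apply] at this
      linarith [hg z]
    have k2 : ‖(n : ℂ) • (w * g)‖ ≤ (g y).re - (1 - ‖h - -1‖) :=
      (ContinuousMap.norm_le _ ((by positivity : (0 : ℝ) ≤ _).trans (k y))).2 fun z => by
        simpa [norm_mul, Real.norm_of_nonneg n0, abs_of_nonneg n0] using k z
    rw [norm_smul, Complex.norm_real, Real.norm_of_nonneg n0] at k2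
    linarith [H g gA, Complex.re_le_norm (g y)]
  obtain ⟨f, u, hu, hu'⟩ := geometric_hahn_banach_open (convex_ball _ _) isOpen_ball cv dj
  have pos : ∀ h : C(X, ℝ), (∀ z, 0 ≤ h z) → h ∈ t := fun h hh => ⟨0, A.zero_mem, fun z => by simpa using hh z⟩
  have u0 : u ≤ 0 := by simpa using hu' 0 (pos 0 fun z => le_rfl)
  have f0 : ∀ b ∈ t, 0 ≤ f b := fun b hb => by
    by_contra c
    push Not at c
    have := hu' _ (cone ((u - 1) / f b) (div_nonneg_of_nonpos (by linarith) c.le) b hb)
    rw [map_smul, smul_eq_mul, div_mul_cancel₀ _ c.ne] at this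
    linarith
  have f1 : 0 < f 1 := by
    have := hu (-1) (mem_ball_self one_pos)
    rw [map_neg] at this
    linarith
  let Λ : C_c(X, ℝ) →ₗ[ℝ] ℝ :=
    { toFun := fun v => f v.toContinuousMap / f 1
      map_add' := fun v v' => by
        rw [← add_div, ← map_add]; rfl
      map_smul' := fun c v => by
        rw [RingHom.id_apply, smul_eq_mul, ← mul_div_assoc, ← smul_eq_mul c, ← map_smul]; rfl }
  let L := PositiveLinearMap.mk₀ Λ fun v k => div_nonneg (f0 _ (pos _ fun z => CompactlySupportedContinuousMap.le_def.1 k z)) f1.le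
  have rep (h : C(X, ℝ)) : ∫ z, h z ∂(RealRMK.rieszMeasure L) = f h / f 1 :=
    RealRMK.integral_rieszMeasure L ⟨h, HasCompactSupport.of_compactSpace _⟩
  have pr : IsProbabilityMeasure (RealRMK.rieszMeasure L) := by
    have := rep 1
    rw [div_self f1.ne'] at this
    simp only [ContinuousMap.one_apply, integral_const, smul_eq_mul, mul_one] at this
    exact isProbabilityMeasure_iff_real.2 this
  refine ⟨_, pr, fun g gA => ?_⟩
  have cg : Continuous fun z => ‖w z * g z‖ := by fun_prop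
  obtain ⟨c, c1, hc⟩ := Complex.exists_norm_eq_mul_self (g y)
  have m : (⟨fun z => n * ‖w z * g z‖ - ‖g y‖, by fun_prop⟩ : C(X, ℝ)) ∈ t :=
    ⟨c • g, A.smul_mem _ gA, fun z => by
      simp only [ContinuousMap.smul_apply, smul_eq_mul, ← hc, Complex.ofReal_re, ContinuousMap.coe_mk]
      rw [mul_left_comm, norm_mul c, c1, one_mul]⟩
  have := div_nonneg (f0 _ m) f1.le
  rw [← rep] at this
  simp only [ContinuousMap.coe_mk] at this
  rw [integral_sub ((cg.integrable_of_hasCompactSupport (HasCompactSupport.of_compactSpace _)).const_mul n)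
    (integrable_const _), integral_const_mul] at this
  simpa using this

lemma pol0 (R : ℝ) : ∫⁻ p in ball (0 : ℂ) R, ‖p‖ₑ⁻¹ ≤ ENNReal.ofReal (2 * π * R) := by
  rw [← lintegral_indicator measurableSet_ball, ← Complex.lintegral_comp_polarCoord_symm]
  calc _ ≤ ∫⁻ p in polarCoord.target, (Ioo 0 R ×ˢ Ioo (-π) π).indicator 1 p := by
        refine setLIntegral_mono' polarCoord.open_target.measurableSet fun p hp => ?_
        by_cases h : Complex.polarCoord.symm p ∈ ball (0 : ℂ) R
        · have p0 : 0 < p.1 := hp.1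
          have e : ‖Complex.polarCoord.symm p‖ = p.1 := by
            rw [Complex.norm_polarCoord_symm, abs_of_pos p0]
          rw [indicator_of_mem h, indicator_of_mem (s := Ioo 0 R ×ˢ Ioo (-π) π)
            ⟨⟨p0, by simpa [e, abs_of_pos p0] using h⟩, hp.2⟩, ← ofReal_norm, e, smul_eq_mul]
          exact ENNReal.mul_inv_le_one _
        · rw [indicator_of_notMem h]; simp
    _ ≤ ∫⁻ p, (Ioo 0 R ×ˢ Ioo (-π) π).indicator 1 p := setLIntegral_le_lintegral _ _
    _ = volume (Ioo 0 R ×ˢ Ioo (-π) π) := lintegral_indicator_one (measurableSet_Ioo.prod measurableSet_Ioo)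
    _ = _ := by
      rw [Measure.volume_eq_prod, Measure.prod_prod, Real.volume_Ioo, Real.volume_Ioo,
        ← ENNReal.ofReal_mul' (by linarith [Real.pi_pos])]
      congr 1; ring

lemma pol (z : ℂ) (R : ℝ) : ∫⁻ p in ball z R, ‖z - p‖ₑ⁻¹ ≤ ENNReal.ofReal (2 * π * R) := by
  refine le_of_eq_of_le ?_ (pol0 R)
  rw [← lintegral_indicator measurableSet_ball, ← lintegral_indicator measurableSet_ball,
    ← lintegral_add_right_eq_self _ z]
  congr 1
  ext p
  by_cases h : p ∈ ball (0 : ℂ) R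
  · rw [indicator_of_mem h, indicator_of_mem (by simpa using h)]
    simp
  · rw [indicator_of_notMem h, indicator_of_notMem (by simpa using h)]

lemma volb (p : ℂ) {r : ℝ} (r0 : 0 ≤ r) : volume (ball p r) = ENNReal.ofReal (π * r ^ 2) := by
  rw [Complex.volume_ball, ENNReal.ofReal_mul Real.pi_pos.le, ENNReal.ofReal_pow r0, mul_comm]
  congr 1
  rw [← NNReal.coe_real_pi, ENNReal.ofReal_coe_nnreal]

lemma inner (z y : ℂ) {s : ℝ} (s0 : 0 < s) :
    ∫⁻ p in ball y s, ‖z - y‖ₑ * ‖z - p‖ₑ⁻¹ ≤ ENNReal.ofReal (12 * π * s ^ 2) := by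
  have pi := Real.pi_pos
  rcases le_or_gt ‖z - y‖ (2 * s) with h | h
  · rw [lintegral_const_mul' _ _ enorm_ne_top]
    have sb : ball y s ⊆ ball z (3 * s) := ball_subset_ball' (by rw [dist_comm, dist_eq_norm]; linarith)
    calc _ ≤ ENNReal.ofReal (2 * s) * ENNReal.ofReal (2 * π * (3 * s)) := by
          gcongr
          · rw [← ofReal_norm]; exact ENNReal.ofReal_le_ofReal h
          · exact (lintegral_mono_set sb).trans (pol z _)
      _ = _ := by rw [← ENNReal.ofReal_mul (by positivity)]; congr 1; ring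
  · calc _ ≤ ∫⁻ _ in ball y s, ENNReal.ofReal 2 := by
          refine setLIntegral_mono' measurableSet_ball fun p hp => ?_
          rw [mem_ball, dist_eq_norm] at hp
          have t := norm_sub_le_norm_sub_add_norm_sub z p y
          have p0 : 0 < ‖z - p‖ := by linarith
          rw [← ofReal_norm, ← ofReal_norm, ← ENNReal.ofReal_inv_of_pos p0,
            ← ENNReal.ofReal_mul (norm_nonneg _)]
          refine ENNReal.ofReal_le_ofReal ?_
          rw [← div_eq_mul_inv, div_le_iff₀ p0]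
          linarith
      _ ≤ _ := by
          rw [setLIntegral_const, volb y s0.le, ← ENNReal.ofReal_mul (by positivity)]
          refine ENNReal.ofReal_le_ofReal ?_
          nlinarith [mul_pos pi (pow_pos s0 2)]

lemma sel (Φ : ℂ → ℝ≥0∞) (p : ℂ) {r k : ℝ} (r0 : 0 < r) (k0 : 0 ≤ k)
    (h : ∫⁻ q in ball p r, Φ q ≤ ENNReal.ofReal (k * π * r ^ 2)) :
    ∃ q ∈ ball p r, Φ q ≤ ENNReal.ofReal (k + 1) := by
  by_contra c
  push Not at c
  have pi := Real.pi_pos
  have : ∫⁻ _ in ball p r, ENNReal.ofReal (k + 1) ≤ ∫⁻ q in ball p r, Φ q :=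
    setLIntegral_mono' measurableSet_ball fun q hq => (c q hq).le
  rw [setLIntegral_const, volb p r0.le, ← ENNReal.ofReal_mul (by positivity)] at this
  have := (ENNReal.ofReal_le_ofReal_iff (by positivity)).1 (this.trans h)
  nlinarith [mul_pos pi (pow_pos r0 2)]

end Pool.Agent.H.MP_65d7a7_an
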