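import Pool.Agent.H.MP_65d7a7_an.A

open Set Metric Filter Topology MeasureTheory TopologicalSpace Polynomial
open scoped Real ENNReal

namespace Pool.Agent.H.MP_65d7a7_an

variable {K : Compacts ℂ}

def rat (K : Compacts ℂ) : Set C(K, ℂ) :=
  {f | ∃ p q : Polynomial ℂ, (∀ z : K, q.eval (z : ℂ) ≠ 0) ∧ ∀ z : K, f z = p.eval (z : ℂ) / q.eval (z : ℂ)}

noncomputable def RA (K : Compacts ℂ) : Subalgebra ℂ C(K, ℂ) where
  carrier := rat K
  mul_mem' := by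
    rintro f g ⟨p, q, h, e⟩ ⟨p', q', h', e'⟩
    exact ⟨p * p', q * q', fun z => by simp [h z, h' z], fun z => by simp [e z, e' z, div_mul_div_comm]⟩
  add_mem' := by
    rintro f g ⟨p, q, h, e⟩ ⟨p', q', h', e'⟩
    exact ⟨p * q' + q * p', q * q', fun z => by simp [h z, h' z], fun z => by
      simp [e z, e' z, div_add_div _ _ (h z) (h' z)]⟩
  algebraMap_mem' c := ⟨C c, 1, fun z => by simp, fun z => by simp⟩

lemma adj : Algebra.adjoin ℂ (rat K) = RA K := Algebra.adjoin_eq (RA K)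

noncomputable def W (K : Compacts ℂ) (y : ℂ) : C(K, ℂ) := ⟨fun z => z - y, by fun_prop⟩

lemma W_mem (y : ℂ) : W K y ∈ RA K := ⟨X - C y, 1, fun z => by simp, fun z => by simp [W]⟩

lemma inv_mem {a : ℂ} (h : a ∉ K) : ∃ g ∈ RA K, ∀ z : K, g z = ((z : ℂ) - a)⁻¹ := by
  have n (z : K) : (z : ℂ) - a ≠ 0 := fun e => h (sub_eq_zero.1 e ▸ z.2)
  exact ⟨⟨fun z => ((z : ℂ) - a)⁻¹, Continuous.inv₀ (by fun_prop) n⟩,
    ⟨1, X - C a, fun z => by simpa using n z, fun z => by simp⟩, fun z => rfl⟩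

lemma dq {f : C(K, ℂ)} (hf : f ∈ RA K) (y : K) : ∃ g ∈ RA K, ∀ z : K, f z - f y = ((z : ℂ) - y) * g z := by
  obtain ⟨p, q, h, e⟩ := hf
  have r : (C (q.eval (y : ℂ)) * p - C (p.eval (y : ℂ)) * q).IsRoot y := by simp [mul_comm]
  obtain ⟨M, hM⟩ := dvd_iff_isRoot.2 r
  have n (z : K) : q.eval (y : ℂ) * q.eval (z : ℂ) ≠ 0 := mul_ne_zero (h y) (h z)
  refine ⟨⟨fun z => M.eval (z : ℂ) / (q.eval (y : ℂ) * q.eval (z : ℂ)), Continuous.div (by fun_prop) (by fun_prop) n⟩,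
    ⟨M, C (q.eval (y : ℂ)) * q, fun z => by simpa using n z, fun z => by simp⟩, fun z => ?_⟩
  have := congrArg (eval (z : ℂ)) hM
  simp only [eval_sub, eval_mul, eval_C, eval_X] at this
  have a := h y
  have b := h z
  simp only [e, ContinuousMap.coe_mk]
  field_simp
  linear_combination this

def Cl (x y : K) (ε : ℝ) : Prop := ∀ f ∈ RA K, ‖f‖ ≤ 1 → ‖f x - f y‖ ≤ ε

lemma Cl.symm {x y : K} {ε : ℝ} (h : Cl x y ε) : Cl y x ε := fun f a b => norm_sub_rev (f x) _ ▸ h f a b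

lemma Cl.trans {x y z : K} {ε δ η : ℝ} (h : Cl x y ε) (h' : Cl y z δ) (e : ε + δ ≤ η) : Cl x z η := fun f a b =>
  (norm_sub_le_norm_sub_add_norm_sub _ (f y) _).trans ((add_le_add (h f a b) (h' f a b)).trans e)

lemma Cl.refl (x : K) {ε : ℝ} (e : 0 ≤ ε) : Cl x x ε := fun f _ _ => by simpa using e

lemma Cl_closed (x : K) (ε : ℝ) : IsClosed {y | Cl x y ε} := by
  simp only [Cl, ofPred_forall]
  exact isClosed_iInter fun f => isClosed_iInter fun _ => isClosed_iInter fun _ =>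
    isClosed_le (by fun_prop) continuous_const

def F (K : Compacts ℂ) (n : ℝ) : Set K := {y | ∀ g ∈ RA K, ‖g y‖ ≤ n * ‖W K y * g‖}

lemma F_closed (n : ℝ) : IsClosed (F K n) := by
  simp only [F, ofPred_forall]
  refine isClosed_iInter fun f => isClosed_iInter fun _ => isClosed_le (by fun_prop) ?_
  have e (y : K) : W K y = W K 0 - (y : ℂ) • 1 := by ext; simp [W]
  simp only [e]
  fun_prop

noncomputable def Ph (μ : Measure K) (y p : ℂ) : ℝ≥0∞ := ∫⁻ z : K, ‖(z : ℂ) - y‖ₑ * ‖(z : ℂ) - p‖ₑ⁻¹ ∂μ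

lemma Ph_meas (μ : Measure K) [IsProbabilityMeasure μ] (y : ℂ) : Measurable (Ph μ y) :=
  Measurable.lintegral_prod_right' (f := fun t : ℂ × K => ‖(t.2 : ℂ) - y‖ₑ * ‖(t.2 : ℂ) - t.1‖ₑ⁻¹) (by fun_prop)

lemma Ph_int (μ : Measure K) [IsProbabilityMeasure μ] (y : ℂ) {s : ℝ} (s0 : 0 < s) :
    ∫⁻ p in ball y s, Ph μ y p ≤ ENNReal.ofReal (12 * π * s ^ 2) := by
  unfold Ph
  rw [lintegral_lintegral_swap (by fun_prop)]
  exact (lintegral_mono fun z => inner _ y s0).trans (by simp)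

def Rp (μ : Measure K) (y : K) (n : ℝ) : Prop := ∀ g ∈ RA K, ‖g y‖ ≤ n * ∫ z, ‖W K y z * g z‖ ∂μ

lemma exR {y : K} {n : ℝ} (n0 : 0 ≤ n) (h : y ∈ F K n) : ∃ μ : Measure K, IsProbabilityMeasure μ ∧ Rp μ y n :=
  dom (Subalgebra.toSubmodule (RA K)) (W K y) y n n0 h

variable {μ : Measure K} {y : K} {n k : ℝ} {p : ℂ}

lemma Rp.bd (h : Rp μ y n) (n0 : 0 ≤ n) (k0 : 0 ≤ k) (hp : Ph μ y p ≤ ENNReal.ofReal k) {g : C(K, ℂ)}
    (hg : g ∈ RA K) {c : ℝ} (c0 : 0 < c) (hc : ∀ z : K, ‖(z : ℂ) - p‖ * ‖g z‖ ≤ c) : ‖g y‖ ≤ n * (c * k) := by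
  refine (h g hg).trans (mul_le_mul_of_nonneg_left ?_ n0)
  rw [integral_norm_eq_lintegral_enorm (Continuous.aestronglyMeasurable (by fun_prop))]
  refine ENNReal.toReal_le_of_le_ofReal (by positivity) ?_
  rw [ENNReal.ofReal_mul c0.le]
  refine le_trans ?_ (mul_le_mul_right hp _)
  unfold Ph
  rw [← lintegral_const_mul' _ _ ENNReal.ofReal_ne_top]
  refine lintegral_mono fun z => ?_
  simp only [W, ContinuousMap.coe_mk, enorm_mul]
  rw [mul_left_comm]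
  refine mul_le_mul_right ?_ _
  by_cases e : (z : ℂ) - p = 0
  · simp [e, ENNReal.mul_top (ENNReal.ofReal_pos.2 c0).ne']
  · have p0 := norm_pos_iff.2 e
    rw [← ofReal_norm, ← ofReal_norm, ← ENNReal.ofReal_inv_of_pos p0, ← ENNReal.ofReal_mul c0.le]
    refine ENNReal.ofReal_le_ofReal ?_
    rw [← div_eq_mul_inv, le_div_iff₀' p0]
    exact hc z

lemma Rp.mem (h : Rp μ y n) (n0 : 0 ≤ n) (k0 : 0 ≤ k) (hp : Ph μ y p ≤ ENNReal.ofReal k)
    (s : n * k * ‖(y : ℂ) - p‖ < 1) : p ∈ K := by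
  by_contra c
  obtain ⟨g, hg, e⟩ := inv_mem c
  have m (z : K) : 0 < ‖(z : ℂ) - p‖ := norm_pos_iff.2 fun e => c (sub_eq_zero.1 e ▸ z.2)
  have := h.bd n0 k0 hp hg one_pos fun z => by rw [e, norm_inv, mul_inv_cancel₀ (m z).ne']
  rw [e, norm_inv, inv_le_iff_one_le_mul₀ (m y)] at this
  linarith

lemma Rp.cl (h : Rp μ y n) (n0 : 0 ≤ n) (k0 : 0 ≤ k) {p : K} (hp : Ph μ y p ≤ ENNReal.ofReal k) :
    Cl y p (2 * n * k * ‖(y : ℂ) - p‖) := fun f hf f1 => by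
  obtain ⟨g, hg, e⟩ := dq hf p
  have := h.bd n0 k0 hp hg two_pos fun z => by
    rw [← norm_mul, ← e]
    linarith [norm_sub_le (f z) (f p), f.norm_coe_le_norm z, f.norm_coe_le_norm p]
  rw [e, norm_mul]
  nlinarith [norm_nonneg ((y : ℂ) - p)]

lemma two {x y : K} {n d : ℝ} (n0 : 0 ≤ n) (hx : x ∈ F K n) (hy : y ∈ F K n) (hd : ‖(x : ℂ) - y‖ < d)
    (s : 61 * n * d < 1) : Cl x y (366 * n * d) := by
  have d0 : 0 < d := (norm_nonneg _).trans_lt hd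
  obtain ⟨μ, _, h⟩ := exR n0 hx
  obtain ⟨ν, _, h'⟩ := exR n0 hy
  have sb : ball (x : ℂ) d ⊆ ball y (2 * d) := ball_subset_ball' (by rw [dist_eq_norm]; linarith)
  obtain ⟨p, hp, e⟩ := sel (fun p => Ph μ x p + Ph ν y p) x d0 (k := 60) (by norm_num) (by
    rw [lintegral_add_left (Ph_meas μ x)]
    refine (add_le_add (Ph_int μ x d0) ((lintegral_mono_set sb).trans (Ph_int ν y (by positivity)))).trans ?_
    rw [← ENNReal.ofReal_add (by positivity) (by positivity)]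
    exact le_of_eq (by congr 1; ring))
  have a := sb hp
  rw [mem_ball, dist_comm, dist_eq_norm] at hp a
  have m : p ∈ K := h.mem n0 (by norm_num) (le_self_add.trans e) (by nlinarith [mul_le_mul_of_nonneg_left hp.le n0])
  refine (h.cl (p := ⟨p, m⟩) n0 (by norm_num) (le_self_add.trans e)).trans
    (h'.cl (p := ⟨p, m⟩) n0 (by norm_num) (le_add_self.trans e)).symm ?_
  nlinarith [mul_le_mul_of_nonneg_left hp.le n0, mul_le_mul_of_nonneg_left a.le n0]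

lemma step (hK : interior (K : Set ℂ) = ∅) (x : K) {ε n : ℝ} (ε0 : 0 < ε) (n0 : 0 < n) :
    ∃ x', Cl x x' ε ∧ x' ∉ F K n := by
  by_contra c
  push Not at c
  have hx := c x (Cl.refl x ε0.le)
  obtain ⟨δ, δ0, δ1, δ2⟩ : ∃ δ : ℝ, 0 < δ ∧ 61 * n * δ < 1 ∧ 500 * n * δ ≤ ε := by
    refine ⟨min (1 / (100 * n)) (ε / (500 * n)), by positivity, ?_, ?_⟩
    · have := min_le_left (1 / (100 * n)) (ε / (500 * n))
      rw [le_div_iff₀ (by positivity)] at this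
      nlinarith [mul_pos (show 0 < min (1 / (100 * n)) (ε / (500 * n)) by positivity) n0]
    · have := min_le_right (1 / (100 * n)) (ε / (500 * n))
      rw [le_div_iff₀ (by positivity)] at this
      linarith
  obtain ⟨w, wb, wK⟩ : ∃ w ∈ ball (x : ℂ) (δ / 2), w ∉ K := by
    by_contra d
    push Not at d
    have : (x : ℂ) ∈ interior (K : Set ℂ) := mem_interior.2 ⟨_, d, isOpen_ball, mem_ball_self (by positivity)⟩
    simp [hK] at this
  obtain ⟨y, hy, mn⟩ := (F_closed n).isCompact.exists_isMinOn ⟨x, hx⟩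
    (f := fun z : K => ‖(z : ℂ) - w‖) (by fun_prop)
  rw [mem_ball, dist_comm, dist_eq_norm] at wb
  obtain ⟨t, ht⟩ : ∃ t, t = ‖(y : ℂ) - w‖ := ⟨_, rfl⟩
  have t0 : 0 < t := ht ▸ norm_pos_iff.2 fun e => wK (sub_eq_zero.1 e ▸ y.2)
  have t1 : t < δ / 2 := ht ▸ (mn hx).trans_lt wb
  have xy : Cl x y (366 * n * δ) := two n0.le hx hy (by
    linarith [norm_sub_le_norm_sub_add_norm_sub (x : ℂ) w y, norm_sub_rev w y]) δ1
  obtain ⟨μ, _, h⟩ := exR n0.le hy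
  have s1 : ball (((y : ℂ) + w) / 2) (t / 2) ⊆ ball y t := ball_subset_ball' (by
    rw [dist_eq_norm, show ((y : ℂ) + w) / 2 - y = -(y - w) / 2 by ring, norm_div, norm_neg, ← ht]; simp)
  have s2 : ball (((y : ℂ) + w) / 2) (t / 2) ⊆ ball w t := ball_subset_ball' (by
    rw [dist_eq_norm, show ((y : ℂ) + w) / 2 - w = (y - w) / 2 by ring, norm_div, ← ht]; simp)
  obtain ⟨p, hp, e⟩ := sel (Ph μ y) (((y : ℂ) + w) / 2) (half_pos t0) (k := 48) (by norm_num)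
    (((lintegral_mono_set s1).trans (Ph_int μ y t0)).trans (le_of_eq (by congr 1; ring)))
  have a := s1 hp
  have b := s2 hp
  rw [mem_ball, dist_comm, dist_eq_norm] at a
  rw [mem_ball, dist_eq_norm] at b
  have q := mul_le_mul_of_nonneg_left (a.le.trans t1.le) n0.le
  have nd := mul_pos n0 δ0
  have m : p ∈ K := h.mem n0.le (by norm_num) e (by nlinarith)
  have := mn (c _ (xy.trans (h.cl (p := ⟨p, m⟩) n0.le (by norm_num) e) (by nlinarith)))
  exact (ht ▸ b).not_ge this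

lemma step2 (hK : interior (K : Set ℂ) = ∅) (n : ℝ) (n0 : 0 < n) (u : K × {ε : ℝ // 0 < ε}) :
    ∃ v : K × {ε : ℝ // 0 < ε}, ∀ y, Cl v.1 y v.2 → Cl u.1 y u.2 ∧ y ∉ F K n := by
  obtain ⟨x, ε, ε0⟩ := u
  obtain ⟨x', h, m⟩ := step hK x (half_pos ε0) n0
  obtain ⟨δ, δ0, hδ⟩ := Metric.isOpen_iff.1 (F_closed n).isOpen_compl x' m
  obtain ⟨D, hD⟩ : ∃ D, D = ‖W K 0‖ + 1 := ⟨_, rfl⟩
  have D0 : 0 < D := hD ▸ by positivity
  refine ⟨(x', ⟨min (ε / 2) (δ / (2 * D)), by positivity⟩), fun y hy => ⟨h.trans hy ?_, hδ ?_⟩⟩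
  · simp only
    linarith [min_le_left (ε / 2) (δ / (2 * D))]
  have := hy (((D⁻¹ : ℝ) : ℂ) • W K 0) ((RA K).smul_mem (W_mem 0) _) (by
    rw [norm_smul, Complex.norm_real, Real.norm_of_nonneg (by positivity), inv_mul_le_iff₀ D0]; linarith)
  simp only [W, ContinuousMap.smul_apply, ContinuousMap.coe_mk, sub_zero, smul_eq_mul, ← mul_sub, norm_mul,
    Complex.norm_real, Real.norm_of_nonneg (inv_nonneg.2 D0.le)] at this
  have := this.trans (min_le_right _ _)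
  rw [inv_mul_le_iff₀ D0, show D * (δ / (2 * D)) = δ / 2 by field_simp] at this
  rw [mem_ball, dist_comm, Subtype.dist_eq, dist_eq_norm]
  linarith

lemma lim (hK : interior (K : Set ℂ) = ∅) (x : K) : ∃ y, Cl x y (1 / 2) ∧ ∀ n : ℕ, y ∉ F K (n + 1) := by
  choose nx hn using fun n : ℕ => step2 hK (n + 1) (by positivity)
  let u : ℕ → K × {ε : ℝ // 0 < ε} := fun n => Nat.rec (x, ⟨1 / 2, by norm_num⟩) nx n
  obtain ⟨y, hy⟩ := IsCompact.nonempty_iInter_of_sequence_nonempty_isCompact_isClosed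
    (fun n => {y | Cl (u n).1 y (u n).2}) (fun n y h => (hn n (u n) y h).1)
    (fun n => ⟨_, Cl.refl _ (u n).2.2.le⟩) (Cl_closed _ _).isCompact fun n => Cl_closed _ _
  rw [mem_iInter] at hy
  exact ⟨y, hy 0, fun n => (hn n (u n) y (hy (n + 1))).2⟩

end Pool.Agent.H.MP_65d7a7_an
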