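import Pool.Agent.H.MP_65d7a7_an.B

open Set Metric Filter Topology MeasureTheory TopologicalSpace Polynomial
open scoped Real ENNReal

namespace Pool.Agent.H.MP_65d7a7_an

structure Ch (K : Set ℂ) (c : ℂ) (R : ℝ) (a : ℕ → ℂ) (r : ℕ → ℝ) : Prop where
  R0 : 0 < R
  r0 : ∀ n, 0 < r n
  dj : ∀ m n, m ≠ n → Disjoint (closedBall (a m) (r m)) (closedBall (a n) (r n))
  sb : ∀ n, closedBall (a n) (r n) ⊆ ball c R
  sm : Summable r
  eq : K = closedBall c R \ ⋃ n, ball (a n) (r n)

variable {K : Set ℂ} {c : ℂ} {R : ℝ} {a : ℕ → ℂ} {r : ℕ → ℝ}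

lemma Ch.s0 (h : Ch K c R a r) : sphere c R ⊆ K := fun z hz => by
  rw [h.eq]
  refine ⟨sphere_subset_closedBall hz, fun m => ?_⟩
  obtain ⟨n, hn⟩ := mem_iUnion.1 m
  exact (mem_sphere.1 hz).not_lt (h.sb n (ball_subset_closedBall hn))

lemma Ch.s1 (h : Ch K c R a r) (n : ℕ) : sphere (a n) (r n) ⊆ K := fun z hz => by
  rw [h.eq]
  refine ⟨ball_subset_closedBall (h.sb n (sphere_subset_closedBall hz)), fun m => ?_⟩
  obtain ⟨k, hk⟩ := mem_iUnion.1 m
  by_cases e : k = n
  · subst e; exact (mem_sphere.1 hz).not_lt hk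
  · exact Set.disjoint_left.1 (h.dj k n e) (ball_subset_closedBall hk) (sphere_subset_closedBall hz)

def P (c : ℂ) (R : ℝ) (a : ℕ → ℂ) (r : ℕ → ℝ) (g : ℂ → ℂ) : Prop :=
  HasSum (fun n => ∮ z in C(a n, r n), g z) (∮ z in C(c, R), g z)

lemma out {c w : ℂ} {R : ℝ} (R0 : 0 ≤ R) (h : w ∉ closedBall c R) : (∮ z in C(c, R), (z - w)⁻¹) = 0 := by
  have n : ∀ z ∈ closedBall c R, z - w ≠ 0 := fun z hz e => h (sub_eq_zero.1 e ▸ hz)
  exact Complex.circleIntegral_eq_zero_of_differentiable_on_off_countable R0 countable_empty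
    (ContinuousOn.inv₀ (by fun_prop) n) fun z hz =>
      DifferentiableAt.inv (by fun_prop) (n z (ball_subset_closedBall hz.1))

lemma Ch.pole (h : Ch K c R a r) {w : ℂ} (hw : w ∉ K) (m : ℕ) : P c R a r fun z => ((z - w) ^ (m + 1))⁻¹ := by
  unfold P
  rcases m with _ | m
  · simp only [zero_add, pow_one]
    by_cases o : w ∈ closedBall c R
    · obtain ⟨j, hj⟩ : ∃ j, w ∈ ball (a j) (r j) := by
        by_contra d
        exact hw (h.eq ▸ ⟨o, fun m => d (mem_iUnion.1 m)⟩)
      rw [circleIntegral.integral_sub_inv_of_mem_ball (h.sb j (ball_subset_closedBall hj)),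
        ← circleIntegral.integral_sub_inv_of_mem_ball hj]
      exact hasSum_single j fun n hn => out (h.r0 n).le
        (Set.disjoint_left.1 (h.dj j n (Ne.symm hn)) (ball_subset_closedBall hj))
    · rw [out h.R0.le o]
      simp only [fun n => out (h.r0 n).le fun e => o (ball_subset_closedBall (h.sb n e))]
      exact hasSum_zero
  · have e (z : ℂ) : ((z - w) ^ (m + 1 + 1))⁻¹ = (z - w) ^ (-((m + 1 + 1 : ℕ) : ℤ)) := by
      rw [zpow_neg, zpow_natCast]
    simp only [e, circleIntegral.integral_sub_zpow_of_ne (show -((m + 1 + 1 : ℕ) : ℤ) ≠ -1 by omega)]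
    exact hasSum_zero

lemma Ch.comb (h : Ch K c R a r) {f g k : ℂ → ℂ} (cf : ContinuousOn f K) (cg : ContinuousOn g K) (t : ℂ)
    (e : ∀ z ∈ K, k z = t * f z + g z) (hf : P c R a r f) (hg : P c R a r g) : P c R a r k := by
  have q {c : ℂ} {R : ℝ} (R0 : 0 ≤ R) (s : sphere c R ⊆ K) :
      (∮ z in C(c, R), k z) = t * (∮ z in C(c, R), f z) + ∮ z in C(c, R), g z := by
    rw [circleIntegral.integral_congr R0 fun z hz => e z (s hz), circleIntegral.integral_add (f := fun z => t * f z)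
      (ContinuousOn.circleIntegrable R0 (continuousOn_const.mul (cf.mono s)))
      ((cg.mono s).circleIntegrable R0), circleIntegral.integral_const_mul]
  unfold P
  simp only [q h.R0.le h.s0, fun n => q (h.r0 n).le (h.s1 n)]
  exact (hf.mul_left t).add hg

lemma Ch.rat (h : Ch K c R a r) (d : ℕ) : ∀ q : ℂ[X], q.natDegree = d → (∀ z ∈ K, q.eval z ≠ 0) →
    ∀ p : ℂ[X], P c R a r fun z => p.eval z / q.eval z := by
  induction d using Nat.strong_induction_on with
  | _ d ih =>
  intro q hd hq p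
  rcases Nat.eq_zero_or_pos d with rfl | d0
  · rw [eq_C_of_natDegree_eq_zero hd]
    have e (c : ℂ) {R : ℝ} (R0 : 0 ≤ R) : (∮ z in C(c, R), p.eval z / (C (q.coeff 0)).eval z) = 0 := by
      refine DiffContOnCl.circleIntegral_eq_zero R0 (Differentiable.diffContOnCl ?_)
      simp only [eval_C]
      exact p.differentiable.div_const _
    unfold P
    simp only [e c h.R0.le, fun n => e (a n) (h.r0 n).le]
    exact hasSum_zero
  have q0 : q ≠ 0 := by rintro rfl; simp at hd; omega
  obtain ⟨w, hw⟩ := Complex.exists_root (natDegree_pos_iff_degree_pos.1 (hd ▸ d0))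
  have wK : w ∉ K := fun m => hq w m hw
  obtain ⟨q1, e, nd⟩ := exists_eq_pow_rootMultiplicity_mul_and_not_dvd q q0 w
  obtain ⟨m, hm⟩ := Nat.exists_eq_succ_of_ne_zero ((rootMultiplicity_pos q0).2 hw).ne'
  rw [hm] at e
  have w1 : q1.eval w ≠ 0 := fun t => nd (dvd_iff_isRoot.2 t)
  have q10 : q1 ≠ 0 := by rintro rfl; simp at w1
  obtain ⟨p1, hp⟩ := dvd_iff_isRoot.2 (show (p - C (p.eval w / q1.eval w) * q1).IsRoot w by simp [w1])
  have n (z) (hz : z ∈ K) : z - w ≠ 0 := fun e => wK (sub_eq_zero.1 e ▸ hz)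
  have n1 (z) (hz : z ∈ K) : q1.eval z ≠ 0 := fun t => hq z hz (by rw [e]; simp [t])
  have n2 (z) (hz : z ∈ K) : ((X - C w) ^ m * q1).eval z ≠ 0 := by simp [n z hz, n1 z hz]
  have c1 : ContinuousOn (fun z => ((z - w) ^ (m + 1))⁻¹) K :=
    ContinuousOn.inv₀ (by fun_prop) fun z hz => pow_ne_zero _ (n z hz)
  have cp (u : ℂ[X]) : ContinuousOn (fun z => u.eval z) K := u.continuous.continuousOn
  have c2 : ContinuousOn (fun z => p1.eval z / ((X - C w) ^ m * q1).eval z) K := fun z hz =>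
    (cp p1 z hz).div (cp _ z hz) (n2 z hz)
  refine h.comb c1 c2 (p.eval w / q1.eval w) (fun z hz => ?_) (h.pole wK m)
    (ih _ ?_ ((X - C w) ^ m * q1) rfl n2 p1)
  · have := congrArg (eval z) hp
    have a := n z hz
    have b := n1 z hz
    simp only [eval_sub, eval_mul, eval_C, eval_X] at this
    obtain ⟨t, ht⟩ : ∃ t, t = p.eval w / q1.eval w := ⟨_, rfl⟩
    rw [← ht] at this ⊢
    rw [e]
    simp only [eval_sub, eval_mul, eval_C, eval_X, eval_pow, Nat.succ_eq_add_one]
    field_simp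
    linear_combination (z - w) ^ m * this
  · rw [← hd, e, natDegree_mul (pow_ne_zero _ (X_sub_C_ne_zero w)) q10,
      natDegree_mul (pow_ne_zero _ (X_sub_C_ne_zero w)) q10]
    simp

lemma Ch.vol (h : Ch K c R a r) : volume (ball c R \ ⋃ n, closedBall (a n) (r n)) ≠ 0 := by
  intro z
  have z2 := Measure.measure_ae_null_of_prod_null ((Complex.volume_preserving_equiv_real_prod.symm).quasiMeasurePreserving.preimage_null z)
  have bc := ae_finite_setOfPred_mem (μ := volume) (s := fun n => Icc ((a n).re - r n) ((a n).re + r n)) (by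
    simp only [Real.volume_Icc]
    rw [← ENNReal.ofReal_tsum_of_nonneg (fun n => by linarith [h.r0 n])
      ((h.sm.mul_left 2).congr fun n => by ring)]
    exact ENNReal.ofReal_ne_top)
  obtain ⟨t, ht, h1, h2⟩ := Measure.exists_mem_of_measure_ne_zero_of_ae (μ := volume)
    (s := Ioo (c.re - R) (c.re + R)) (by simp [h.R0]) (ae_restrict_of_ae (z2.and bc))
  let L : ℝ → ℂ := fun u => t + u * Complex.I
  have cL : Continuous L := by fun_prop
  have oA : IsOpen (L ⁻¹' ball c R) := isOpen_ball.preimage cL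
  have cB : IsClosed (L ⁻¹' ⋃ n ∈ {i | t ∈ Icc ((a i).re - r i) ((a i).re + r i)}, closedBall (a n) (r n)) :=
    (h2.isClosed_biUnion fun n _ => isClosed_closedBall).preimage cL
  have em := ((oA.sdiff cB).measure_eq_zero_iff volume).1 (measure_mono_null (fun u hu => by
    have e : Complex.measurableEquivRealProd.symm (t, u) = L u := by
      apply Complex.ext <;> simp [L]
    simp only [mem_preimage, e]
    refine ⟨hu.1, fun m => hu.2 ?_⟩
    obtain ⟨n, hn⟩ := mem_iUnion.1 m
    refine mem_biUnion (x := n) ?_ hn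
    have := (Complex.abs_re_le_norm _).trans (mem_closedBall_iff_norm.1 hn)
    simp only [L, Complex.sub_re, Complex.add_re, Complex.ofReal_re, Complex.mul_re, Complex.I_re, mul_zero,
      Complex.ofReal_im, Complex.I_im, zero_mul, sub_zero, add_zero, abs_le] at this
    constructor <;> linarith) h1)
  have cA : IsClosed (L ⁻¹' ball c R) := by
    convert cB using 1
    refine (sdiff_eq_empty.1 em).antisymm (preimage_mono (iUnion₂_subset fun n _ => h.sb n))
  have : c.im + R ∈ L ⁻¹' ball c R := by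
    rw [IsClopen.eq_univ ⟨cA, oA⟩ ⟨c.im, by
      rw [mem_preimage, mem_ball_iff_norm, show L c.im - c = ((t - c.re : ℝ) : ℂ) by
        apply Complex.ext <;> simp [L], Complex.norm_real, Real.norm_eq_abs, abs_lt]
      constructor <;> linarith [ht.1, ht.2]⟩]
    trivial
  have := (Complex.abs_im_le_norm _).trans_lt (mem_ball_iff_norm.1 this)
  simp [L, abs_of_pos h.R0] at this

lemma Ch.good (h : Ch K c R a r) : ∃ y ∈ ball c R, (∀ n, y ∉ closedBall (a n) (r n)) ∧
    Summable fun n => r n / (‖y - a n‖ - r n) := by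
  have i : ∫⁻ y in ball c R, ∑' n, ENNReal.ofReal (r n) * ‖a n - y‖ₑ⁻¹ ≠ ∞ := by
    rw [lintegral_tsum fun n => by fun_prop]
    refine ne_top_of_le_ne_top (b := ∑' n, ENNReal.ofReal (r n * (2 * π * (2 * R)))) ?_ (ENNReal.tsum_le_tsum fun n => ?_)
    · rw [← ENNReal.ofReal_tsum_of_nonneg (fun n => by have := h.r0 n; have := h.R0; positivity) (h.sm.mul_right _)]
      exact ENNReal.ofReal_ne_top
    · rw [lintegral_const_mul' _ _ ENNReal.ofReal_ne_top, ENNReal.ofReal_mul (h.r0 n).le]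
      refine mul_le_mul_right ((lintegral_mono_set (ball_subset_ball' ?_)).trans (pol _ _)) _
      have := h.sb n (mem_closedBall_self (h.r0 n).le)
      rw [mem_ball, dist_comm] at this
      linarith
  obtain ⟨y, hy, s⟩ := Measure.exists_mem_of_measure_ne_zero_of_ae h.vol
    (ae_restrict_of_ae_restrict_of_subset sdiff_subset (ae_lt_top (by fun_prop) i))
  have o n : y ∉ closedBall (a n) (r n) := fun m => hy.2 (mem_iUnion.2 ⟨n, m⟩)
  have o' n : r n < ‖y - a n‖ := not_le.1 fun m => o n (mem_closedBall_iff_norm.2 m)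
  have s2 : Summable fun n => r n / ‖y - a n‖ := (ENNReal.summable_toReal s.ne).congr fun n => by
    rw [ENNReal.toReal_mul, ENNReal.toReal_ofReal (h.r0 n).le, ENNReal.toReal_inv, toReal_enorm, norm_sub_rev,
      div_eq_mul_inv]
  refine ⟨y, hy.1, o, (s2.mul_left 2).of_norm_bounded_eventually_nat ?_⟩
  filter_upwards [s2.tendsto_atTop_zero.eventually (gt_mem_nhds (show (0 : ℝ) < 1 / 2 by norm_num))] with n hn
  have r0 := h.r0 n
  have p0 := r0.trans (o' n)
  have p1 := sub_pos.2 (o' n)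
  rw [div_lt_iff₀ p0] at hn
  rw [Real.norm_of_nonneg (by positivity), ← mul_div_assoc, div_le_div_iff₀ p1 p0]
  nlinarith

end Pool.Agent.H.MP_65d7a7_an
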