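import Pool.Agent.H.MP_65d7a7_an.C

open Set Metric Filter Topology MeasureTheory TopologicalSpace Polynomial
open scoped Real ENNReal

namespace Pool.Agent.H.MP_65d7a7_an

variable {K : Compacts ℂ} {c : ℂ} {R : ℝ} {a : ℕ → ℂ} {r : ℕ → ℝ}

lemma circ {g k : C(K, ℂ)} {y : K} (e : ∀ z : K, g z - g y = ((z : ℂ) - y) * k z) {p q : ℂ[X]}
    (hq : ∀ z : K, q.eval (z : ℂ) ≠ 0) (hk : ∀ z : K, k z = p.eval (z : ℂ) / q.eval (z : ℂ)) {c : ℂ} {R d b : ℝ}
    (R0 : 0 ≤ R) (s : sphere c R ⊆ K) (d0 : 0 < d) (hd : ∀ z ∈ sphere c R, d ≤ ‖z - y‖)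
    (hb : ∀ z : K, (z : ℂ) ∈ sphere c R → ‖g z‖ ≤ b) :
    ‖(∮ z in C(c, R), p.eval z / q.eval z) + g y * ∮ z in C(c, R), (z - y)⁻¹‖ ≤ 2 * π * R * (b / d) := by
  have n (z) (hz : z ∈ sphere c R) : z - (y : ℂ) ≠ 0 := norm_pos_iff.1 (d0.trans_le (hd z hz))
  have cp (u : ℂ[X]) : ContinuousOn (fun z => u.eval z) (sphere c R) := u.continuous.continuousOn
  have c2 : ContinuousOn (fun z => p.eval z / q.eval z) (sphere c R) := fun z hz =>
    (cp p z hz).div (cp q z hz) (hq ⟨z, s hz⟩)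
  have c1 : ContinuousOn (fun z => g y * (z - (y : ℂ))⁻¹) (sphere c R) :=
    continuousOn_const.mul (ContinuousOn.inv₀ (by fun_prop) n)
  rw [← circleIntegral.integral_const_mul, ← circleIntegral.integral_add (c2.circleIntegrable R0)
    (c1.circleIntegrable R0)]
  refine circleIntegral.norm_integral_le_of_norm_le_const R0 fun z hz => ?_
  have a := e ⟨z, s hz⟩
  rw [hk] at a
  have : p.eval z / q.eval z + g y * (z - y)⁻¹ = g ⟨z, s hz⟩ / (z - y) := by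
    rw [eq_div_iff (n z hz), add_mul, mul_assoc, inv_mul_cancel₀ (n z hz)]
    linear_combination -a
  rw [this, norm_div]
  exact div_le_div₀ ((norm_nonneg _).trans (hb ⟨z, s hz⟩ hz)) (hb ⟨z, s hz⟩ hz) d0 (hd z hz)

lemma Ch.cauchy (h : Ch K c R a r) {y : K} (y0 : (y : ℂ) ∈ ball c R) (y1 : ∀ n, (y : ℂ) ∉ closedBall (a n) (r n))
    {g : C(K, ℂ)} (hg : g ∈ RA K) {b0 T : ℝ} {b : ℕ → ℝ} (h0 : ∀ z : K, (z : ℂ) ∈ sphere c R → ‖g z‖ ≤ b0)
    (h1 : ∀ n, ∀ z : K, (z : ℂ) ∈ sphere (a n) (r n) → ‖g z‖ ≤ b n)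
    (hT : HasSum (fun n => r n / (‖(y : ℂ) - a n‖ - r n) * b n) T) :
    ‖g y‖ ≤ R / (R - ‖(y : ℂ) - c‖) * b0 + T := by
  obtain ⟨k, ⟨p, q, hq, hk⟩, e⟩ := dq hg y
  have P := h.rat _ q rfl (fun z hz => hq ⟨z, hz⟩) p
  have A := circ e hq hk h.R0.le h.s0 (sub_pos.2 (mem_ball_iff_norm.1 y0)) (fun z hz => by
    linarith [mem_sphere_iff_norm.1 hz, norm_sub_le_norm_sub_add_norm_sub z y c]) h0
  have B n := circ e hq hk (h.r0 n).le (h.s1 n)
    (sub_pos.2 (not_le.1 fun m => y1 n (mem_closedBall_iff_norm.2 m))) (fun z hz => by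
      linarith [mem_sphere_iff_norm.1 hz, norm_sub_le_norm_sub_add_norm_sub (y : ℂ) z (a n), norm_sub_rev z y]) (h1 n)
  rw [circleIntegral.integral_sub_inv_of_mem_ball y0] at A
  simp only [fun n => out (h.r0 n).le (y1 n), mul_zero, add_zero] at B
  have C := P.norm_le_of_bounded (hT.mul_left (2 * π)) fun n => (B n).trans_eq (by ring)
  have D := norm_sub_le ((∮ z in C(c, R), p.eval z / q.eval z) + g y * (2 * π * Complex.I))
    (∮ z in C(c, R), p.eval z / q.eval z)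
  rw [add_sub_cancel_left, norm_mul] at D
  have E : ‖(2 * π * Complex.I : ℂ)‖ = 2 * π := by simp [abs_of_pos Real.pi_pos]
  rw [E] at D
  refine le_of_mul_le_mul_right (a := 2 * π) ((D.trans (add_le_add A C)).trans_eq (by ring)) (by positivity)

def Peak (K : Compacts ℂ) (x : K) : Prop :=
  ∃ f ∈ (RA K).topologicalClosure, f x = 1 ∧ ∀ y, y ≠ x → ‖f y‖ < 1

lemma thet (f : C(K, ℂ)) {S : Set ℂ} (hS : IsClosed S) (h : ∀ z : K, (z : ℂ) ∈ S → ‖f z‖ < 1) :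
    ∃ θ, 0 ≤ θ ∧ θ < 1 ∧ ∀ z : K, (z : ℂ) ∈ S → ‖f z‖ ≤ θ := by
  rcases (((↑) : K → ℂ) ⁻¹' S).eq_empty_or_nonempty with e | ne
  · exact ⟨0, le_rfl, one_pos, fun z hz => (e.subset hz).elim⟩
  obtain ⟨w, hw, m⟩ := (hS.preimage continuous_subtype_val).isCompact.exists_isMaxOn ne
    (f := fun z => ‖f z‖) (by fun_prop)
  exact ⟨_, norm_nonneg _, h w hw, fun z hz => m hz⟩

lemma appr {f : C(K, ℂ)} (hf : f ∈ (RA K).topologicalClosure) {η : ℝ} (η0 : 0 < η) :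
    ∃ g ∈ RA K, ∀ z, ‖f z - g z‖ ≤ η := by
  obtain ⟨g, hg, d⟩ := Metric.mem_closure_iff.1 hf η η0
  exact ⟨g, hg, fun z => ((f - g).norm_coe_le_norm z).trans (dist_eq_norm f g ▸ d.le)⟩

lemma Ch.nonpeak (h : Ch K c R a r) : ∃ x, ¬ Peak K x := by
  obtain ⟨y, y0, y1, s⟩ := h.good
  have yK : y ∈ (K : Set ℂ) := h.eq ▸ ⟨ball_subset_closedBall y0, fun m =>
    (mem_iUnion.1 m).elim fun n hn => y1 n (ball_subset_closedBall hn)⟩
  refine ⟨⟨y, yK⟩, fun ⟨f, hf, f1, f0⟩ => ?_⟩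
  obtain ⟨θ0, a0, b0, c0⟩ := thet f (isClosed_sphere (x := c) (ε := R)) fun z hz => f0 z fun e => by
    subst e; exact (mem_sphere.1 hz).not_lt y0
  choose θ a1 b1 c1 using fun n => thet f (isClosed_sphere (x := a n) (ε := r n)) fun z hz => f0 z fun e => by
    subst e; exact y1 n (sphere_subset_closedBall hz)
  obtain ⟨w, hw⟩ : ∃ w : ℕ → ℝ, ∀ n, r n / (‖y - a n‖ - r n) = w n := ⟨_, fun _ => rfl⟩
  have w0 n : 0 ≤ w n := hw n ▸ div_nonneg (h.r0 n).le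
    (sub_pos.2 (not_le.1 fun m => y1 n (mem_closedBall_iff_norm.2 m))).le
  simp only [hw] at s
  obtain ⟨v, hv⟩ : ∃ v, R / (R - ‖y - c‖) = v := ⟨_, rfl⟩
  have v0 : 0 ≤ v := hv ▸ div_nonneg h.R0.le (sub_pos.2 (mem_ball_iff_norm.1 y0)).le
  have bd k n : ‖w n * θ n ^ k‖ ≤ w n := by
    have := a1 n
    have := w0 n
    rw [Real.norm_of_nonneg (by positivity)]
    exact mul_le_of_le_one_right this (pow_le_one₀ (a1 n) (b1 n).le)
  have t1 := tendsto_tsum_of_dominated_convergence (𝓕 := atTop) (f := fun k n => w n * θ n ^ k) s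
    (fun n => (tendsto_pow_atTop_nhds_zero_of_lt_one (a1 n) (b1 n)).const_mul (w n)) (.of_forall bd)
  have t2 := ((tendsto_pow_atTop_nhds_zero_of_lt_one a0 b0).const_mul v).add t1
  simp only [mul_zero, tsum_zero, add_zero] at t2
  obtain ⟨k, hk⟩ := (t2.eventually (gt_mem_nhds (show (0 : ℝ) < 1 / 2 by norm_num))).exists
  have S0 : 0 ≤ ∑' n, w n := tsum_nonneg w0
  obtain ⟨η, η0, hη⟩ : ∃ η : ℝ, 0 < η ∧ η * (1 + v + ∑' n, w n) = 1 / 2 :=
    ⟨1 / 2 / (1 + v + ∑' n, w n), by positivity, div_mul_cancel₀ _ (by positivity)⟩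
  obtain ⟨g, hg, d⟩ := appr (pow_mem hf k) η0
  have q (z : K) (t : ℝ) (ht : ‖f z‖ ≤ t) : ‖g z‖ ≤ t ^ k + η := by
    have := norm_sub_le ((f ^ k) z) ((f ^ k) z - g z)
    have e := d z
    rw [sub_sub_cancel] at this
    simp only [ContinuousMap.pow_apply, norm_pow] at this e
    linarith [pow_le_pow_left₀ (norm_nonneg _) ht k]
  have := h.cauchy (y := ⟨y, yK⟩) y0 y1 hg (fun z hz => q z _ (c0 z hz)) (fun n z hz => q z _ (c1 n z hz))
    (T := ∑' n, w n * θ n ^ k + (∑' n, w n) * η) (by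
      simp only [hw, mul_add]
      exact (s.of_norm_bounded (bd k)).hasSum.add (s.hasSum.mul_right η))
  have e := norm_add_le ((f ^ k) ⟨y, yK⟩ - g ⟨y, yK⟩) (g ⟨y, yK⟩)
  have d' := d ⟨y, yK⟩
  rw [sub_add_cancel, ContinuousMap.pow_apply, f1, one_pow, norm_one] at e
  rw [ContinuousMap.pow_apply, f1, one_pow] at d'
  simp only [hv] at this
  nlinarith

lemma Cl.ext {x y : K} {ε : ℝ} (h : Cl x y ε) {f : C(K, ℂ)} (hf : f ∈ (RA K).topologicalClosure)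
    (f1 : ∀ z, ‖f z‖ ≤ 1) : ‖f x - f y‖ ≤ ε := by
  have ε0 : 0 ≤ ε := by simpa using h 0 (zero_mem _) (by simp)
  refine le_of_forall_pos_le_add fun δ δ0 => ?_
  obtain ⟨η, η0, hη⟩ : ∃ η : ℝ, 0 < η ∧ η * (ε + 2) = δ :=
    ⟨δ / (ε + 2), by positivity, div_mul_cancel₀ _ (by positivity)⟩
  obtain ⟨g, hg, d⟩ := appr hf η0
  have p : 0 < 1 + η := by positivity
  have := h ((((1 + η)⁻¹ : ℝ) : ℂ) • g) ((RA K).smul_mem hg _) (by
    rw [norm_smul, Complex.norm_real, Real.norm_of_nonneg (by positivity), inv_mul_le_iff₀ p, mul_one]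
    refine (ContinuousMap.norm_le _ p.le).2 fun z => ?_
    have := norm_sub_le (f z) (f z - g z)
    rw [sub_sub_cancel] at this
    linarith [d z, f1 z])
  simp only [ContinuousMap.smul_apply, smul_eq_mul, ← mul_sub, norm_mul, Complex.norm_real,
    Real.norm_of_nonneg (inv_nonneg.2 p.le)] at this
  rw [inv_mul_le_iff₀ p] at this
  have a := norm_sub_le_norm_sub_add_norm_sub (f x) (g x) (f y)
  have b := norm_sub_le_norm_sub_add_norm_sub (g x) (g y) (f y)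
  have c := norm_sub_rev (g y) (f y)
  nlinarith [d x, d y]

theorem gen (hK : interior (K : Set ℂ) = ∅) (hx : ∃ x, ¬ Peak K x) : ∃ x, ¬ Peak K x ∧
    ∀ D : (RA K).topologicalClosure →L[ℂ] ℂ, (∀ f g, D (f * g) = f.1 x * D g + g.1 x * D f) → D = 0 := by
  obtain ⟨x, hx⟩ := hx
  obtain ⟨y, cl, nF⟩ := lim hK x
  refine ⟨y, fun ⟨f, hf, f1, f0⟩ => ?_, fun D hD => ?_⟩
  · by_cases e : x = y
    · exact hx ⟨f, hf, e ▸ f1, e ▸ f0⟩
    obtain ⟨k, hk⟩ := exists_pow_lt_of_lt_one (show (0 : ℝ) < 1 / 2 by norm_num) (f0 x e)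
    have := cl.ext (pow_mem hf k) fun z => by
      rw [ContinuousMap.pow_apply, norm_pow]
      refine pow_le_one₀ (norm_nonneg _) ?_
      by_cases e : z = y
      · simp [e, f1]
      · exact (f0 z e).le
    have b := norm_sub_le ((f ^ k) x) ((f ^ k) x - (f ^ k) y)
    rw [sub_sub_cancel] at b
    simp only [ContinuousMap.pow_apply, f1, one_pow, norm_one, norm_pow] at b this
    linarith
  have le := (RA K).le_topologicalClosure
  let Z : (RA K).topologicalClosure := ⟨W K y, le (W_mem y)⟩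
  have key (g) (hg : g ∈ RA K) : D (Z * ⟨g, le hg⟩) = g y * D Z := by rw [hD]; simp [Z, W]
  have Z0 : D Z = 0 := by
    by_contra c
    have c0 := norm_pos_iff.2 c
    obtain ⟨n, hn⟩ := exists_nat_ge (‖D‖ / ‖D Z‖)
    refine nF n fun g hg => ?_
    have := D.le_opNorm (Z * ⟨g, le hg⟩)
    rw [key g hg, norm_mul, ← le_div_iff₀ c0, mul_div_right_comm] at this
    exact this.trans (mul_le_mul_of_nonneg_right (by linarith) (norm_nonneg (W K y * g)))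
  have D1 : D 1 = 0 := by simpa using hD 1 1
  have R0 (f) (hf : f ∈ RA K) : D ⟨f, le hf⟩ = 0 := by
    obtain ⟨g, hg, e⟩ := dq hf y
    have : (⟨f, le hf⟩ : (RA K).topologicalClosure) = f y • 1 + Z * ⟨g, le hg⟩ := by
      ext z
      simpa [Z, W, sub_eq_iff_eq_add'] using e z
    rw [this, map_add, map_smul, D1, key g hg, Z0]; simp
  ext f
  refine norm_le_zero_iff.1 (le_of_forall_pos_le_add fun δ δ0 => ?_)
  obtain ⟨g, hg, d⟩ := appr f.2 (show 0 < δ / (‖D‖ + 1) by positivity)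
  have := D.le_opNorm (f - ⟨g, le hg⟩)
  rw [map_sub, R0 g hg, sub_zero] at this
  have b : ‖f - ⟨g, le hg⟩‖ ≤ δ / (‖D‖ + 1) := (ContinuousMap.norm_le (f.1 - g) (by positivity)).2 d
  rw [le_div_iff₀ (by positivity)] at b
  nlinarith [norm_nonneg (f - ⟨g, le hg⟩)]

end Pool.Agent.H.MP_65d7a7_an
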